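import Mathlib
import Pool.Agent.Helper2.PB.Defs
import Pool.Agent.KTP.Ema
import Pool.Agent.KTP.Fia

/-!
# Weak perturbations of one-site Hamiltonians: polynomial bond dimension
-/

set_option autoImplicit false

namespace Pool.Agent.Results.MP_e4acd5_mp.WeakPerturbation

open Matrix Pool.Agent.Helper2.PB Pool.Agent.KTP

/-- For every local dimension `d`, side `s ≥ 1` and `δ > 0` there is `ε₀ > 0` such that: if `k` is a
one-site Hermitian matrix whose eigenvalue number `g` lies at least `δ` below all the others, `p` a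
position of the box and `h` a Hermitian operator on the `s × s` box with Hilbert-Schmidt distance at
most `ε₀` from `k` acting at `p`, then for every `L ≥ s` the Hamiltonian `H_L` (sum of all translates
of `h`) has a unique ground state with gap at least `δ/2`, and for every `c ≥ 0` there is a polynomial
`C L^m` such that for every `L ≥ s` the ground state is within `L^{-c}` of a PEPS of bond dimension at
most `C L^m`. -/
theorem result {d s : ℕ} (hs1 : 1 ≤ s) (δ : ℝ) (hδ : 0 < δ) :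
    ∃ ε₀ : ℝ, 0 < ε₀ ∧ ∀ (k : Matrix (Fin d) (Fin d) ℂ) (hk : k.IsHermitian) (g : Fin d)
      (p : Box s) (h : Matrix (Box s → Fin d) (Box s → Fin d) ℂ),
      (∀ i, i ≠ g → hk.eigenvalues g + δ ≤ hk.eigenvalues i) → h.IsHermitian →
      Real.sqrt (∑ x, ∑ y, ‖(h - onSite p k) x y‖ ^ 2) ≤ ε₀ →
      (∀ (L : ℕ) [NeZero L], s ≤ L → ∃ (E₀ : ℝ) (ψ : (Torus L → Fin d) → ℂ),
        IsGappedGround (ham L h) E₀ (δ / 2) ψ) ∧
      ∀ c : ℝ, 0 ≤ c → ∃ C m : ℕ, ∀ (L : ℕ) [NeZero L], s ≤ L →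
        ∀ (E₀ : ℝ) (ψ : (Torus L → Fin d) → ℂ), IsGappedGround (ham L h) E₀ (δ / 2) ψ →
        ∃ D : ℕ, D ≤ C * L ^ m ∧
          ∃ A : Torus L → Fin d → Fin D → Fin D → Fin D → Fin D → ℂ,
            Real.sqrt (nsq (fun σ => pepsState A σ - ψ σ)) ≤ (L : ℝ) ^ (-c) :=
  weak2 hs1 δ hδ

end Pool.Agent.Results.MP_e4acd5_mp.WeakPerturbation
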